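import Pool.Agent.Run7.h791.VC.Main
import Pool.Agent.Run7.h791.VC.Sharp

set_option autoImplicit false

/-!
# MP_c7a479_co: orders `n ≡ 2 mod 4`, group cubes and decompositions of the parity

Let `n ≡ 2 mod 4` and choose in the symbols of every cube a half `H a`. The parity of the number of
the cubes `a` in a set `T` of cubes with `C a x ∈ H a` is a function of the cell `x`.

(1) If `T` has an even number of at most `m` cubes (for example two) of a variational set with at
least `m` cubes, then this function is not a sum of functions of one variable.
(2) Hence at most one of the cubes of a variational set with at least `m ≥ 2` cubes is a group cube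
(an iterated product in some group of order `n`, in any order of the variables and with any
relabelling of the coordinates and of the symbols).
(3) If `m` is even and there are `m + 1` cubes, then the parity function of all cubes is not a sum
of functions of more than `m / 2` disjoint nonempty blocks of variables.
(4) The bound `m / 2` is attained for order six and every even `m ≥ 8`.

Proof. (1) The signed sum over all cells of the product of the signs of the cubes in `T` is `0`. If the
function splits then this sum is the product of the signed sums of the functions of one variable.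
Such a function has an even number of odd values (the product of the signs on a line is
`(-1)^(|T| n/2) = 1`) and so its signed sum is not zero as `n / 2` is odd. (2) A group of order `n`
has a character of order two (the sign of the regular representation). (3) The signed sum is
`2^(m+1) N - n^m` with `N` the number of the cells with all `C a x ∉ H a`, so `2^(m+1)` does not divide
it; but the signed sum of each block is divisible by four, as the number of the odd values on each
line is odd. (4) The family of `Pool.Agent.TH418.CubesEven` has blocks of two variables.
-/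

namespace Pool.Agent.Results.MP_c7a479_co.ParityDecompositions

open Pool.Agent.H430R2.PermCubes Pool.Agent.Run7.h791.VC

/-- **Parity decompositions** of variational sets of order `n ≡ 2 mod 4`. -/
theorem result :
    -- (1) an even number of at most `m` cubes and functions of one variable
    (∀ m n k : ℕ, n % 4 = 2 → m ≤ k →
      ∀ C : Fin k → (Fin m → Fin n) → Fin n, IsVariationalSet m n k C →
      ∀ T : Finset (Fin k), T.Nonempty → Even T.card → T.card ≤ m →
      ∀ H : Fin k → Finset (Fin n), (∀ a, 2 * (H a).card = n) →
        ¬ ∃ p : Fin m → Fin n → ZMod 2,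
          ∀ x, ((T.filter fun a => C a x ∈ H a).card : ZMod 2) = ∑ i, p i (x i)) ∧
    -- (2) at most one group cube
    (∀ m n k : ℕ, 2 ≤ m → n % 4 = 2 → m ≤ k →
      ∀ C : Fin k → (Fin m → Fin n) → Fin n, IsVariationalSet m n k C →
        ∀ a a' : Fin k, GroupCube m n (C a) → GroupCube m n (C a') → a = a') ∧
    -- (3) `m + 1` cubes and blocks of variables, `m` even
    (∀ m n r : ℕ, Even m → n % 4 = 2 →
      ∀ C : Fin (m + 1) → (Fin m → Fin n) → Fin n, IsVariationalSet m n (m + 1) C →
      ∀ H : Fin (m + 1) → Finset (Fin n), (∀ a, 2 * (H a).card = n) →
      ∀ b : Fin m → Fin r, Function.Surjective b →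
      ∀ p : Fin r → (Fin m → Fin n) → ZMod 2,
        (∀ j x y, (∀ i, b i = j → x i = y i) → p j x = p j y) →
        (∀ x, ((Finset.univ.filter fun a => C a x ∈ H a).card : ZMod 2) = ∑ j, p j x) →
        2 * r ≤ m) ∧
    -- (4) sharpness for order six
    (∀ m : ℕ, 8 ≤ m → Even m →
      ∃ C : Fin (m + 1) → (Fin m → Fin 6) → Fin 6, IsVariationalSet m 6 (m + 1) C ∧
      ∃ H : Fin (m + 1) → Finset (Fin 6), (∀ a, 2 * (H a).card = 6) ∧
      ∃ (b : Fin m → Fin (m / 2)) (p : Fin (m / 2) → (Fin m → Fin 6) → ZMod 2),
        Function.Surjective b ∧
        (∀ j x y, (∀ i, b i = j → x i = y i) → p j x = p j y) ∧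
        ∀ x, ((Finset.univ.filter fun a => C a x ∈ H a).card : ZMod 2) = ∑ j, p j x) := by
  refine ⟨?_, ?_, ?_, ?_⟩
  · rintro m n k hn hmk C hC T hT hTe hTm H hH ⟨p, hp⟩
    refine even_part hn hC hH hmk T hT hTm hTe (fun i s => sg (p i s)) (fun i s => sg_cases _)
      (fun x => ?_)
    rw [← sg_card, hp, sg_sum]
  · intro m n k hm hn hmk C hC a a' h h'
    exact one_group hm hn hmk C hC a a' h h'
  · intro m n r hm hn C hC H hH b hb p hdep hp
    refine blocks hm hn hC hH b hb (fun j x => sg (p j x)) (fun j x => sg_cases _)
      (fun j x y h => by rw [hdep j x y h]) (fun x => ?_)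
    rw [← sg_card, hp, sg_sum]
  · intro m hm he
    obtain ⟨C, hC, b, p, hb, hdep, hp⟩ := sharp_six hm he
    exact ⟨C, hC, fun _ => odd6, fun _ => rfl, b, p, hb, hdep, hp⟩

end Pool.Agent.Results.MP_c7a479_co.ParityDecompositions
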