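import Pool.Agent.Run7.h207.VS.Full

set_option autoImplicit false

/-!
# Large variational sets exist only for the orders of projective planes

If a variational set of permutation cubes of order `n`, of any dimension `m ≥ 2`, has at least
`n + m - 1 - d` members with `d ^ 4 < n`, then `π_2(n) = n - 1`, and `n` satisfies the condition of
Bruck and Ryser. So `π_m(n) ≤ n + m - 2 - d` in all dimensions for the orders excluded by Bruck and
Ryser.
-/

open Pool.Agent.H430R2.PermCubes

namespace Pool.Agent.Results.MP_c7a479_co.ProjectivePlaneDichotomy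

/-- If `d ^ 4 < n`, or `d = 2` and `n ≥ 8`, and there is a variational set of `k ≥ n + m - 1 - d`
cubes of dimension `m ≥ 2` and order `n`, then the largest number of mutually orthogonal latin
squares of order `n` is `n - 1`, and `n` is a sum of two squares if it is `1` or `2` modulo `4`. -/
theorem result :
    ∀ m n k d : ℕ, 2 ≤ m → 1 ≤ d → (d ^ 4 < n ∨ d = 2 ∧ 8 ≤ n) → n + m ≤ k + d + 1 →
      (∃ C : Fin k → (Fin m → Fin n) → Fin n, IsVariationalSet m n k C) →
        IsPi 2 n (n - 1) ∧ (n % 4 = 1 ∨ n % 4 = 2 → ∃ a b : ℕ, n = a ^ 2 + b ^ 2) := by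
  rintro m n k d hm hd hdn hk ⟨C, hC⟩
  refine ⟨Pool.Agent.Run7.h207.VS.isPi_two_of_large hm hd hdn.symm hk hC, fun h4 => ?_⟩
  by_contra hsq
  have := Pool.Agent.Run7.h207.VS.full_bruck_ryser hm hd hdn.symm h4 hsq hC
  omega

end Pool.Agent.Results.MP_c7a479_co.ProjectivePlaneDichotomy
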